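import Pool.Agent.Helper54.BR.Main

open Pool.Agent.Helper54.BR

/-- For every fixed `k ≥ 5`, balanced recombination `BR(G,k,s)` restricted to 3-connected graphs
`G` is PSPACE-hard, already for slack `s = 0`: every language in PSPACE reduces to it by a
polynomial-time computable map. -/
theorem Pool.Agent.Results.MP_5f1d42_lc.ThreeConnected.result (k : ℕ) (hk : 5 ≤ k)
    (L : Set (List Bool)) (hL : InPSPACE L) :
    ∃ f : List Bool → Inst k,
      Nonempty (Turing.TM2ComputableInPolyTime (fun l : List Bool => l) (fun l => l)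
        (fun x => (f x).code)) ∧
      ∀ x, (f x).s = 0 ∧ ThreeConnected (f x).G ∧
        IsBCP (f x).G (f x).s (f x).A ∧ IsBCP (f x).G (f x).s (f x).B ∧
        (x ∈ L ↔ Reach (f x).G (f x).s (f x).A (f x).B) :=
  main k hk L hL
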